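import Pool.Agent.H62R3.PI.C9

set_option autoImplicit false

namespace Pool.Agent.H62R3.PI

open Pool.Agent.H572R4 Pool.Agent.Helper446 Pool.Agent.Helper446.Defs
open Pool.Agent.Helper446.CB Pool.Agent.Helper446.CB.Ix

/-- the last coordinate -/
def ii (x : ℕ) : ℕ := x.unpair.2.unpair.2

theorem ii_comp : Computable ii := by unfold ii; fun_prop

theorem taskC8' (imm : Imm) : TaskC8 := by
  classical
  intro hB h7 D hD
  obtain ⟨C, hC⟩ := hB
  obtain ⟨I, hI1, hI2, hI3, hI4⟩ := h7 D (hD.1 (by simp))
  set A0 : Set ℕ := {x | yy x ∉ C ∨ I x.unpair.1 (yy x) (ii x)} with hA0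
  have hre : REPred fun x : ℕ => x ∈ A0 := by
    have h1 : REPred fun x : ℕ => yy x ∉ C := RE.comp hC.2.1 yy_comp
    have h2 : REPred fun x : ℕ => I x.unpair.1 (yy x) (ii x) :=
      RE.comp (f := fun x : ℕ => ((x.unpair.1, yy x), ii x)) hI1
        (Computable.pair (Computable.pair (by fun_prop) yy_comp) ii_comp)
    exact (RE.or h1 h2).of_eq fun x => by simp [hA0]
  refine ⟨fun _ => A0, fun _ => hre, fun _ _ _ _ => Set.Subset.rfl, ?_⟩
  intro n
  show (¬ CR (row n ∩ A0)) ↔ D n
  constructor
  · intro hcr
    by_contra hn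
    apply hcr
    rw [hI4 n] at hn
    push Not at hn
    obtain ⟨a0, ha0⟩ := hn
    have hall : ∀ a, a0 ≤ a → ∀ i, I n a i := fun a ha => hI3 n a0 a ha ha0
    have hcol : ∀ a, CR (A0 ∩ col n a) := by
      intro a
      by_cases h : a ∉ C ∨ ∀ i, I n a i
      · have e : A0 ∩ col n a = col n a := by
          apply Set.inter_eq_right.2
          rintro x ⟨hx1, hx2⟩
          rcases h with h | h
          · left; rw [hx2]; exact h
          · right; rw [hx1, hx2]; exact h _
        rw [e]; exact cr_col n a
      · push Not at h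
        obtain ⟨haC, hex⟩ := h
        have e : A0 ∩ col n a = col n a ∩ {x | ii x < Nat.find hex} := by
          ext x
          constructor
          · rintro ⟨h1, h2⟩
            refine ⟨h2, ?_⟩
            rcases h1 with h1 | h1
            · exact absurd (by rw [h2.2]; exact haC) h1
            · show ii x < Nat.find hex
              by_contra hcon
              push Not at hcon
              rw [h2.1, h2.2] at h1
              exact Nat.find_spec hex (hI2 n a _ _ hcon h1)
          · rintro ⟨h2, h1⟩
            refine ⟨Or.inr ?_, h2⟩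
            rw [h2.1, h2.2]
            exact not_not.1 (Nat.find_min hex h1)
        rw [e]
        exact cr_inter (cr_col n a) (cr_lt ii_comp _)
    have hind : ∀ m, CR (row n ∩ A0 ∩ {x | yy x < m}) := by
      intro m
      induction m with
      | zero =>
        have e : row n ∩ A0 ∩ {x | yy x < 0} = ∅ := by
          ext x; simp
        rw [e]; exact cr_empty
      | succ m ih =>
        have e : row n ∩ A0 ∩ {x | yy x < m + 1} =
            (row n ∩ A0 ∩ {x | yy x < m}) ∪ (A0 ∩ col n m) := by
          ext x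
          simp only [Set.mem_inter_iff, Set.mem_union, Set.mem_ofPred_eq, row, col]
          constructor
          · rintro ⟨⟨h1, h2⟩, h3⟩
            rcases Nat.lt_succ_iff_lt_or_eq.1 h3 with h | h
            · exact Or.inl ⟨⟨h1, h2⟩, h⟩
            · exact Or.inr ⟨h2, h1, h⟩
          · rintro (⟨⟨h1, h2⟩, h3⟩ | ⟨h2, h1, h3⟩)
            · exact ⟨⟨h1, h2⟩, by omega⟩
            · exact ⟨⟨h1, h2⟩, by omega⟩
        rw [e]
        exact cr_union ih (hcol m)
    have e : row n ∩ A0 = (row n ∩ A0 ∩ {x | yy x < a0}) ∪ (row n \ {x | yy x < a0}) := by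
      ext x
      simp only [Set.mem_inter_iff, Set.mem_union, Set.mem_ofPred_eq, Set.mem_sdiff]
      constructor
      · rintro ⟨h1, h2⟩
        by_cases h : yy x < a0
        · exact Or.inl ⟨⟨h1, h2⟩, h⟩
        · exact Or.inr ⟨h1, h⟩
      · rintro (⟨h, _⟩ | ⟨h1, h2⟩)
        · exact h
        · refine ⟨h1, Or.inr ?_⟩
          have h1' : x.unpair.1 = n := h1
          rw [h1']
          exact hall _ (by omega) _
    rw [e]
    exact cr_union (hind a0) (cr_diff (cr_row n) (cr_lt yy_comp a0))
  · intro hDn hcr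
    rw [hI4 n] at hDn
    have hCre : REPred fun a : ℕ => a ∈ C := by
      have h1 : REPred fun a : ℕ => ∃ i : ℕ, Nat.pair n (Nat.pair a i) ∉ row n ∩ A0 := by
        apply RE.exN (p := fun a i => Nat.pair n (Nat.pair a i) ∉ row n ∩ A0)
        have h2 : ComputablePred fun x : ℕ => ¬ x ∈ row n ∩ A0 := ComputablePred.not hcr
        exact RE.comp (f := fun z : ℕ × ℕ => Nat.pair n (Nat.pair z.1 z.2)) (RE.of_comput h2)
          (by fun_prop)
      refine h1.of_eq fun a => ?_
      have hmem : ∀ i, Nat.pair n (Nat.pair a i) ∉ row n ∩ A0 ↔ (a ∈ C ∧ ¬ I n a i) := by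
        intro i
        simp [row, hA0, yy, ii]
      constructor
      · rintro ⟨i, hi⟩
        exact ((hmem i).1 hi).1
      · intro ha
        have := hDn a
        push Not at this
        obtain ⟨i, hi⟩ := this
        exact ⟨i, (hmem i).2 ⟨ha, hi⟩⟩
    exact hC.1 (imm C hC C hCre Set.Subset.rfl)

end Pool.Agent.H62R3.PI
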