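import Pool.Agent.H572R4.Stmts

set_option autoImplicit false

namespace Pool.Agent.H62R3.PI

open Pool.Agent.H572R4 Pool.Agent.Helper446 Pool.Agent.Helper446.Defs
open Pool.Agent.Helper446.CB Pool.Agent.Helper446.CB.Ix

theorem cr_iff {R : Set ℕ} : CR R ↔ ∃ f : ℕ → Bool, Computable f ∧ ∀ n, n ∈ R ↔ f n = true := by
  unfold CR
  rw [ComputablePred.computable_iff]
  constructor
  · rintro ⟨f, hf, h⟩
    exact ⟨f, hf, fun n => iff_of_eq (congrFun h n)⟩
  · rintro ⟨f, hf, h⟩
    exact ⟨f, hf, funext fun n => propext (h n)⟩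

theorem cr_inter {R S : Set ℕ} (h : CR R) (h' : CR S) : CR (R ∩ S) := by
  obtain ⟨f, hf, e⟩ := cr_iff.1 h
  obtain ⟨g, hg, e'⟩ := cr_iff.1 h'
  refine cr_iff.2 ⟨fun n => f n && g n, Primrec.and.to_comp.comp hf hg, fun n => ?_⟩
  simp [e, e']

theorem cr_union {R S : Set ℕ} (h : CR R) (h' : CR S) : CR (R ∪ S) := by
  obtain ⟨f, hf, e⟩ := cr_iff.1 h
  obtain ⟨g, hg, e'⟩ := cr_iff.1 h'
  refine cr_iff.2 ⟨fun n => f n || g n, Primrec.or.to_comp.comp hf hg, fun n => ?_⟩
  simp [e, e']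

theorem cr_diff {R S : Set ℕ} (h : CR R) (h' : CR S) : CR (R \ S) := by
  obtain ⟨f, hf, e⟩ := cr_iff.1 h
  obtain ⟨g, hg, e'⟩ := cr_iff.1 h'
  refine cr_iff.2 ⟨fun n => f n && !g n,
    Primrec.and.to_comp.comp hf (Primrec.not.to_comp.comp hg), fun n => ?_⟩
  simp [e, e']

theorem cr_empty : CR ∅ := cr_iff.2 ⟨fun _ => false, Computable.const _, by simp⟩

theorem cr_diff' {R S : Set ℕ} (h : CR R) (h' : CR (R ∩ S)) : CR (R \ S) := by
  have : R \ S = R \ (R ∩ S) := by simp
  rw [this]; exact cr_diff h h'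

theorem cr_preimage {R : Set ℕ} (h : CR R) {f : ℕ → ℕ} (hf : Computable f) : CR {x | f x ∈ R} := by
  obtain ⟨g, hg, e⟩ := cr_iff.1 h
  exact cr_iff.2 ⟨fun n => g (f n), hg.comp hf, fun n => e _⟩

/-- the second coordinate -/
def yy (x : ℕ) : ℕ := x.unpair.2.unpair.1

theorem yy_comp : Computable yy := by unfold yy; fun_prop

/-- the column -/
def col (n y : ℕ) : Set ℕ := {x | x.unpair.1 = n ∧ yy x = y}

theorem cr_eq {f : ℕ → ℕ} (hf : Computable f) (n : ℕ) : CR {x | f x = n} := by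
  have h : ComputablePred fun x : ℕ => f x = n := RE.cp_eq hf (Computable.const n)
  exact h

theorem cr_lt {f : ℕ → ℕ} (hf : Computable f) (n : ℕ) : CR {x | f x < n} := by
  have h : ComputablePred fun x : ℕ => f x < n := RE.cp_lt hf (Computable.const n)
  exact h

theorem cr_finite (F : Finset ℕ) : CR (↑F : Set ℕ) := by
  classical
  induction F using Finset.induction_on with
  | empty => simpa using cr_empty
  | insert a s _ ih =>
    rw [Finset.coe_insert]
    exact cr_union (cr_eq Computable.id a) ih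

theorem cr_col (n y : ℕ) : CR (col n y) :=
  cr_inter (cr_eq (f := fun x => x.unpair.1) (by fun_prop) n) (cr_eq yy_comp y)

/-- finite unions of columns -/
theorem fin_union (h1 : TaskC1) (h2 : TaskC2) (h3 : TaskC3) (A : ℕ → Set ℕ) (l n : ℕ)
    (Y : Finset ℕ) : ∀ S : Set ℕ, CR S → (∀ x ∈ S, x.unpair.1 = n ∧ yy x ∈ Y) → TW A l S →
      ∃ y ∈ Y, TW A l (S ∩ col n y) := by
  classical
  induction Y using Finset.induction_on with
  | empty =>
    intro S _ hS ht
    exfalso
    have : S = ∅ := by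
      ext x
      constructor
      · intro hx; exact absurd (hS x hx).2 (Finset.notMem_empty _)
      · intro hx; exact absurd hx (Set.notMem_empty _)
    subst this
    exact h3 A l ∅ cr_empty (fun i _ => by rw [Set.empty_inter]; exact cr_empty) ht
  | insert y Y _ ih =>
    intro S hS hSY ht
    have e : S = (S ∩ col n y) ∪ (S \ col n y) := (Set.inter_union_sdiff _ _).symm
    have hc1 := cr_inter hS (cr_col n y)
    have hc2 := cr_diff hS (cr_col n y)
    rw [e] at ht
    rcases h2 h1 A l _ _ hc1 hc2 ht with h | h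
    · exact ⟨y, Finset.mem_insert_self _ _, h⟩
    · obtain ⟨y', hy', h'⟩ := ih (S \ col n y) hc2 (by
        intro x hx
        obtain ⟨a1, a2⟩ := hSY x hx.1
        refine ⟨a1, ?_⟩
        rcases Finset.mem_insert.1 a2 with h3 | h3
        · exact absurd ⟨a1, h3⟩ hx.2
        · exact h3) h
      refine ⟨y', Finset.mem_insert_of_mem hy', ?_⟩
      refine h1 A l _ _ (cr_inter hc2 (cr_col n y')) (cr_inter hS (cr_col n y')) ?_ h'
      exact Set.inter_subset_inter_left _ Set.sdiff_subset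

/-- the coding -/
def ff (x : ℕ) : ℕ := Nat.pair x.unpair.1.unpair.1 (Nat.pair x.unpair.1.unpair.2 x.unpair.2)
/-- its inverse -/
def gg (x : ℕ) : ℕ := Nat.pair (Nat.pair x.unpair.1 x.unpair.2.unpair.1) x.unpair.2.unpair.2

theorem gg_ff (x : ℕ) : gg (ff x) = x := by simp [gg, ff]
theorem ff_gg (x : ℕ) : ff (gg x) = x := by simp [gg, ff]
theorem ff_comp : Computable ff := by unfold ff; fun_prop
theorem gg_comp : Computable gg := by unfold gg; fun_prop

/-- the dead part -/
def dead (C : Set ℕ) : Set ℕ := {x | yy x ∉ C}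

/-- the sets of the next level -/
def nxt (C : Set ℕ) (A : ℕ → Set ℕ) (k : ℕ) (i : ℕ) : Set ℕ := {x | (i ≤ k ∧ gg x ∈ A i) ∨ x ∈ dead C}

theorem image_row (n y : ℕ) : ff '' row (Nat.pair n y) = col n y := by
  ext x
  constructor
  · rintro ⟨z, hz, rfl⟩
    have hz' : z.unpair.1 = Nat.pair n y := hz
    simp [col, yy, ff, hz']
  · rintro ⟨h1, h2⟩
    refine ⟨gg x, ?_, ff_gg x⟩
    unfold yy at h2
    simp [row, gg, h1, h2]

theorem key (h4 : TaskC4) (C : Set ℕ) (A : ℕ → Set ℕ) (k n y : ℕ) (hy : y ∈ C) :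
    TW A k (row (Nat.pair n y)) ↔ TW (nxt C A k) k (col n y) := by
  have h := h4 A (nxt C A k) ff gg ff_comp gg_comp gg_ff k (row (Nat.pair n y)) (cr_row _)
    (by rw [image_row]; exact cr_col n y) (by
      intro i hi x hx
      have hyx : yy (ff x) = y := by
        have : ff x ∈ col n y := by rw [← image_row]; exact ⟨x, hx, rfl⟩
        exact this.2
      constructor
      · intro hA
        left
        exact ⟨hi, by rw [gg_ff]; exact hA⟩
      · rintro (⟨_, h⟩ | h)
        · rwa [gg_ff] at h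
        · exact absurd (by rw [hyx]; exact hy) h)
  rw [image_row] at h
  exact h

theorem nxt_re (C : Set ℕ) (hC : REPred fun x => x ∉ C) (A : ℕ → Set ℕ)
    (hA : ∀ i, REPred fun n => n ∈ A i) (k i : ℕ) : REPred fun n => n ∈ nxt C A k i := by
  have h1 : REPred fun n : ℕ => yy n ∉ C := RE.comp hC yy_comp
  by_cases hi : i ≤ k
  · have h2 : REPred fun n : ℕ => gg n ∈ A i := RE.comp (hA i) gg_comp
    exact (RE.or h2 h1).of_eq fun n => by simp [nxt, dead, hi]
  · exact h1.of_eq fun n => by simp [nxt, dead, hi]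

theorem nxt_dead (C : Set ℕ) (A : ℕ → Set ℕ) (k i : ℕ) : dead C ⊆ nxt C A k i :=
  fun _ hx => Or.inr hx

theorem nxt_anti (C : Set ℕ) (A : ℕ → Set ℕ) (k : ℕ) (hA : ∀ i j, i ≤ j → j ≤ k → A j ⊆ A i)
    (i j : ℕ) (hij : i ≤ j) : nxt C A k j ⊆ nxt C A k i := by
  rintro x (⟨h1, h2⟩ | h)
  · exact Or.inl ⟨hij.trans h1, hA i j hij h1 h2⟩
  · exact Or.inr h

theorem nxt_succ (C : Set ℕ) (A : ℕ → Set ℕ) (k : ℕ) : nxt C A k (k + 1) = dead C := by
  ext x
  simp [nxt]

/-- immunity -/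
def Imm : Prop := ∀ C : Set ℕ, CohS C → ∀ W : Set ℕ, REPred (fun x => x ∈ W) → W ⊆ C → W.Finite

/-- the columns of a computable set outside the dead part -/
theorem cols_fin (imm : Imm) (C : Set ℕ) (hC : CohS C) (S : Set ℕ) (hS : CR S)
    (hd : ∀ x ∈ S, x ∉ dead C) : (yy '' S).Finite := by
  apply imm C hC
  · have h : REPred fun y : ℕ => ∃ x : ℕ, x ∈ S ∧ yy x = y := by
      apply RE.exN (p := fun y x => x ∈ S ∧ yy x = y)
      apply RE.and
      · exact RE.comp (f := fun z : ℕ × ℕ => z.2) (RE.of_comput hS) Computable.snd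
      · exact RE.eq (yy_comp.comp Computable.snd) Computable.fst
    exact h.of_eq fun y => Iff.rfl
  · rintro y ⟨x, hx, rfl⟩
    exact not_not.1 (hd x hx)

theorem taskC9' (imm : Imm) : TaskC9 := by
  classical
  intro hB h1 h2 h3 h4 h5 k hk ih D hD
  obtain ⟨C, hC⟩ := hB
  obtain ⟨D', hD', hmono, hDD⟩ := h5 k D hk hD
  obtain ⟨A, hA, hnest, hT⟩ := ih D' hD'
  refine ⟨nxt C A k, nxt_re C hC.2.1 A hA k, fun i j hij _ => nxt_anti C A k hnest i j hij, ?_⟩
  intro n
  have hkey : ∀ y ∈ C, (TW (nxt C A k) k (col n y) ↔ D' (Nat.pair n y)) := fun y hy => by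
    rw [← key h4 C A k n y hy]; exact hT _
  constructor
  · intro ht
    obtain ⟨R, cR, hsub, cR', htR⟩ := ht.1 hk
    rw [nxt_succ] at cR'
    have e : R = (R ∩ dead C) ∪ (R \ dead C) := (Set.inter_union_sdiff _ _).symm
    have c4 : CR (R \ dead C) := cr_diff' cR cR'
    rw [e] at htR
    rcases h2 h1 _ k _ _ cR' c4 htR with h | h
    · exfalso
      refine h3 _ k _ cR' ?_ h
      intro i hi
      have e : (R ∩ dead C) ∩ nxt C A k i = R ∩ dead C :=
        Set.inter_eq_left.2 (Set.inter_subset_right.trans (nxt_dead C A k i))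
      rw [e]; exact cR'
    · have hfinY := cols_fin imm C hC _ c4 (fun x hx => hx.2)
      obtain ⟨y, hy, hty⟩ := fin_union h1 h2 h3 (nxt C A k) k n hfinY.toFinset _ c4 (by
        intro x hx
        refine ⟨hsub hx.1, ?_⟩
        rw [Set.Finite.mem_toFinset]
        exact ⟨x, hx, rfl⟩) h
      rw [Set.Finite.mem_toFinset] at hy
      obtain ⟨x, hx, hxy⟩ := hy
      have hyC : y ∈ C := by
        rw [← hxy]
        exact not_not.1 hx.2
      rw [hDD n]
      exact ⟨y, (hkey y hyC).1 (h1 _ k _ _ (cr_inter c4 (cr_col n y)) (cr_col n y)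
        Set.inter_subset_right hty)⟩
  · intro hDn
    rw [hDD n] at hDn
    obtain ⟨y0, hy0⟩ := hDn
    obtain ⟨y, hyC, hyy⟩ := hC.1.exists_gt y0
    refine ⟨fun _ => ⟨col n y, cr_col n y, fun x hx => hx.1, ?_,
      (hkey y hyC).2 (hmono n y0 y hyy.le hy0)⟩, fun h => absurd hk h⟩
    rw [nxt_succ]
    have e : col n y ∩ dead C = ∅ := by
      ext z
      simp only [Set.mem_inter_iff, Set.mem_empty_iff_false, iff_false]
      rintro ⟨h5, h6⟩
      apply h6
      rw [h5.2]; exact hyC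
    rw [e]; exact cr_empty

end Pool.Agent.H62R3.PI
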