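import Pool.Agent.H62R3.PI.C9
import Pool.Agent.H62R3.PI.D4

set_option autoImplicit false

namespace Pool.Agent.H62R3.PI

open Pool.Agent.H572R4 Pool.Agent.Helper446 Pool.Agent.Helper446.Defs
open Pool.Agent.Helper446.CB Pool.Agent.Helper446.CB.Ix

theorem xp_seg_comp {α : Type} [Primcodable α] {f g : α → ℕ} (hf : Computable f)
    (hg : Computable g) : Computable fun a => seg (xp (f a)) (g a) := by
  have h1 : Primrec fun p : ℕ × ℕ => (List.range p.2).map (fun i => decide (i = p.1)) := by
    refine Primrec.list_map (Primrec.list_range.comp Primrec.snd) ?_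
    exact (Primrec.eq (α := ℕ)).decide.comp Primrec.snd (Primrec.fst.comp Primrec.fst)
  have h2 : Computable fun a => (List.range (f a, g a).2).map (fun i => decide (i = (f a, g a).1)) :=
    h1.to_comp.comp (f := fun p : ℕ × ℕ => (List.range p.2).map (fun i => decide (i = p.1)))
      (g := fun a => (f a, g a)) (hf.pair hg)
  exact h2

section
variable (q : ℕ → ℕ → Bool)

/-- `s` is the least stage of `j` -/
def Sj (j s : ℕ) : Prop := q j s = true ∧ ∀ s' < s, q j s' = false

/-- the complement of `V` -/
def WV : Set (List Bool) := {σ | ∃ j s, Sj q j s ∧ σ = seg (xp j) (j + 1 + s)}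

/-- the parameter -/
def VV : Set (ℕ → Bool) := {x | ∀ n, seg x n ∉ WV q}

theorem sj_re (hq : Computable₂ q) {α : Type} [Primcodable α] {f g : α → ℕ}
    (hf : Computable f) (hg : Computable g) : REPred fun a => Sj q (f a) (g a) := by
  apply RE.and
  · exact RE.of_bool (hq.comp hf hg)
  · apply RE.all_lt (p := fun a s' => q (f a) s' = false) _ hg
    exact RE.eq (hq.comp (hf.comp Computable.fst) Computable.snd) (Computable.const false)

theorem mem_VV {x : ℕ → Bool} : x ∉ VV q ↔
    ∃ j s, Sj q j s ∧ seg x (j + 1 + s) = seg (xp j) (j + 1 + s) := by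
  unfold VV WV
  constructor
  · intro h
    simp only [Set.mem_ofPred_eq, not_forall, not_not] at h
    obtain ⟨n, j, s, h1, h2⟩ := h
    have h3 : n = j + 1 + s := by
      have := congrArg List.length h2
      simpa using this
    subst h3
    exact ⟨j, s, h1, h2⟩
  · rintro ⟨j, s, h1, h2⟩ h
    exact h (j + 1 + s) ⟨j, s, h1, h2⟩

theorem vv_pi (hq : Computable₂ q) : IsPi01 (VV q) := by
  rw [isPi01_iff]
  refine ⟨WV q, ?_, rfl⟩
  have h : REPred fun σ : List Bool => ∃ j : ℕ, ∃ s : ℕ, Sj q j s ∧ σ = seg (xp j) (j + 1 + s) := by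
    apply RE.exN (p := fun σ j => ∃ s : ℕ, Sj q j s ∧ σ = seg (xp j) (j + 1 + s))
    apply RE.exN (p := fun (z : List Bool × ℕ) s => Sj q z.2 s ∧ z.1 = seg (xp z.2) (z.2 + 1 + s))
    apply RE.and
    · exact sj_re q hq (f := fun z : (List Bool × ℕ) × ℕ => z.1.2) (g := fun z => z.2)
        (by fun_prop) (by fun_prop)
    · refine RE.eq (f := fun z : (List Bool × ℕ) × ℕ => z.1.1) (by fun_prop) ?_
      exact xp_seg_comp (f := fun z : (List Bool × ℕ) × ℕ => z.1.2)
        (g := fun z => z.1.2 + 1 + z.2) (by fun_prop)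
        (Primrec.nat_add.to_comp.comp (Computable.succ.comp (by fun_prop)) (by fun_prop))
  exact h.of_eq fun σ => Iff.rfl

end

theorem xp_self (j : ℕ) : xp j j = true := by simp [xp]
theorem xp_ne {i j : ℕ} (h : i ≠ j) : xp j i = false := by simp [xp, h]

theorem seg_xp_iff {x : ℕ → Bool} {j s : ℕ} : seg x (j + 1 + s) = seg (xp j) (j + 1 + s) ↔
    x j = true ∧ ∀ i < j + 1 + s, i ≠ j → x i = false := by
  rw [seg_eq_iff]
  constructor
  · intro h
    refine ⟨by rw [h j (by omega), xp_self], fun i hi hij => by rw [h i hi, xp_ne hij]⟩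
  · rintro ⟨h1, h2⟩ i hi
    by_cases hij : i = j
    · subst hij; rw [h1, xp_self]
    · rw [h2 i hi hij, xp_ne hij]

theorem first_unique {x : ℕ → Bool} {j j' : ℕ} (h1 : x j = true) (h2 : ∀ i < j, x i = false)
    (h3 : x j' = true) (h4 : ∀ i < j', x i = false) : j = j' := by
  rcases lt_trichotomy j j' with h | h | h
  · rw [h4 j h] at h1; exact absurd h1 (by simp)
  · exact h
  · rw [h2 j' h] at h3; exact absurd h3 (by simp)

theorem taskD3' (d1 : TaskD1) : TaskD3 := by
  classical
  intro B hB A hA
  obtain ⟨q, hq, hAq⟩ := RE.re_iff.1 hA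
  have hleast : ∀ j, j ∈ A → ∃ s, Sj q j s := by
    intro j hj
    have hex := (hAq j).1 hj
    refine ⟨Nat.find hex, Nat.find_spec hex, fun s' hs' => ?_⟩
    have := Nat.find_min hex hs'
    simpa using this
  have hSA : ∀ j s, Sj q j s → j ∈ A := fun j s h => (hAq j).2 ⟨s, h.1⟩
  have hSu : ∀ j s s', Sj q j s → Sj q j s' → s = s' := by
    intro j s s' h h'
    rcases lt_trichotomy s s' with hl | hl | hl
    · have := h'.2 s hl; rw [h.1] at this; exact absurd this (by simp)
    · exact hl
    · have := h.2 s' hl; rw [h'.1] at this; exact absurd this (by simp)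
  have hzzV : zz ∈ VV q := by
    by_contra h
    obtain ⟨j, s, _, h2⟩ := (mem_VV q).1 h
    have := (seg_xp_iff.1 h2).1
    simp [zz] at this
  let V : LB B := ⟨VV q, vv_pi q hq, by
    rw [hB]; intro x hx; rw [Set.mem_singleton_iff.1 hx]; exact hzzV⟩
  have hxpV : ∀ j, xp j ∉ VV q ↔ j ∈ A := by
    intro j
    rw [mem_VV]
    constructor
    · rintro ⟨j', s, h1, h2⟩
      obtain ⟨h3, h4⟩ := seg_xp_iff.1 h2
      have : j' = j := by
        by_contra hne
        rw [xp_ne hne] at h3
        exact absurd h3 (by simp)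
      subst this
      exact hSA _ _ h1
    · intro h
      obtain ⟨s, hs⟩ := hleast j h
      exact ⟨j, s, hs, rfl⟩
  have hxpB : ∀ j, xp j ∉ B.1 := by
    intro j h
    rw [hB] at h
    have h2 := congrFun (Set.mem_singleton_iff.1 h) j
    simp [xp, zz] at h2
  refine ⟨V, fun c hc => ⟨?_, ?_⟩⟩
  · rintro ⟨d, hd, hdV, hcd⟩
    have e : Rc c.1 ∩ A = Rc d.1 := by
      ext j
      constructor
      · rintro ⟨h1, h2⟩
        have h3 : xp j ∈ ((c ⊓ V) ⊔ d).1 := by rw [← hcd]; exact h1
        rcases lb_mem_sup.1 h3 with h | h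
        · exact absurd (lb_mem_inf.1 h).2 ((hxpV j).2 h2)
        · exact h
      · intro h
        have h' : xp j ∈ d.1 := h
        refine ⟨?_, ?_⟩
        · show xp j ∈ c.1
          rw [hcd]; exact lb_mem_sup.2 (Or.inr h')
        · rw [← hxpV]
          intro hV
          exact hxpB j (inf_bot_iff.1 hdV _ h' hV)
    rw [e]
    exact d1 B hB d hd
  · intro hcr
    have hRc := d1 B hB c hc
    obtain ⟨cb, hcb1, hcb2⟩ := hc
    obtain ⟨Wc, hWc, hcW⟩ := isPi01_iff.1 c.2.1
    have hmemc : ∀ x, x ∈ c.1 ↔ ∀ n, seg x n ∉ Wc := by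
      intro x; rw [hcW]; exact Iff.rfl
    have hzzc : zz ∈ c.1 := c.2.2 (by rw [hB]; rfl)
    -- the class d
    let DD : Set (ℕ → Bool) := {x | x = zz ∨ (x ∈ c.1 ∧ x ∉ VV q)}
    let WD : Set (List Bool) := {σ | ∃ j : ℕ, List.take (j + 1) σ = seg (xp j) (j + 1) ∧
      ((σ ∈ Wc ∨ j ∈ Rc c.1 \ (Rc c.1 ∩ A)) ∨
      ((∃ s, Sj q j s ∧ (j + 1 + s ≤ σ.length ∧
        List.take (j + 1 + s) σ ≠ seg (xp j) (j + 1 + s))) ∨
      ∃ t, seg (xp j) (j + 1 + t) ∈ Wc ∧ ∀ s < t + 1, q j s = false))}
    have hWD : REPred fun σ : List Bool => σ ∈ WD := by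
      have hj : Computable fun z : List Bool × ℕ => z.2 + 1 := Computable.succ.comp Computable.snd
      have h0 : REPred fun z : List Bool × ℕ => List.take (z.2 + 1) z.1 = seg (xp z.2) (z.2 + 1) :=
        RE.eq (ctake Computable.fst hj) (xp_seg_comp Computable.snd hj)
      have h1 : REPred fun z : List Bool × ℕ => z.1 ∈ Wc := RE.comp hWc Computable.fst
      have h2 : REPred fun z : List Bool × ℕ => z.2 ∈ Rc c.1 \ (Rc c.1 ∩ A) :=
        RE.comp (RE.of_comput (cr_diff hRc hcr)) Computable.snd
      have hjs : Computable fun y : (List Bool × ℕ) × ℕ => y.1.2 + 1 + y.2 :=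
        Primrec.nat_add.to_comp.comp (Computable.succ.comp (Computable.snd.comp Computable.fst))
          Computable.snd
      have h3 : REPred fun z : List Bool × ℕ => ∃ s, Sj q z.2 s ∧ (z.2 + 1 + s ≤ z.1.length ∧
          List.take (z.2 + 1 + s) z.1 ≠ seg (xp z.2) (z.2 + 1 + s)) := by
        apply RE.exN (p := fun (z : List Bool × ℕ) s => Sj q z.2 s ∧ (z.2 + 1 + s ≤ z.1.length ∧
          List.take (z.2 + 1 + s) z.1 ≠ seg (xp z.2) (z.2 + 1 + s)))
        apply RE.and
        · exact sj_re q hq (f := fun y : (List Bool × ℕ) × ℕ => y.1.2) (g := fun y => y.2)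
            (Computable.snd.comp Computable.fst) Computable.snd
        · apply RE.and
          · exact RE.le hjs (Computable.list_length.comp (Computable.fst.comp Computable.fst))
          · exact RE.ne (ctake (Computable.fst.comp Computable.fst) hjs)
              (xp_seg_comp (Computable.snd.comp Computable.fst) hjs)
      have h4 : REPred fun z : List Bool × ℕ => ∃ t, seg (xp z.2) (z.2 + 1 + t) ∈ Wc ∧
          ∀ s < t + 1, q z.2 s = false := by
        apply RE.exN (p := fun (z : List Bool × ℕ) t => seg (xp z.2) (z.2 + 1 + t) ∈ Wc ∧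
          ∀ s < t + 1, q z.2 s = false)
        apply RE.and
        · exact RE.comp hWc (xp_seg_comp (f := fun y : (List Bool × ℕ) × ℕ => y.1.2)
            (Computable.snd.comp Computable.fst) hjs)
        · apply RE.all_lt (p := fun (y : (List Bool × ℕ) × ℕ) s => q y.1.2 s = false)
            (f := fun y : (List Bool × ℕ) × ℕ => y.2 + 1) _ (Computable.succ.comp Computable.snd)
          exact RE.eq (hq.comp (Computable.snd.comp (Computable.fst.comp Computable.fst))
            Computable.snd) (Computable.const false)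
      exact (RE.exN (p := fun (σ : List Bool) (j : ℕ) => List.take (j + 1) σ = seg (xp j) (j + 1) ∧
        ((σ ∈ Wc ∨ j ∈ Rc c.1 \ (Rc c.1 ∩ A)) ∨
        ((∃ s, Sj q j s ∧ (j + 1 + s ≤ σ.length ∧
          List.take (j + 1 + s) σ ≠ seg (xp j) (j + 1 + s))) ∨
        ∃ t, seg (xp j) (j + 1 + t) ∈ Wc ∧ ∀ s < t + 1, q j s = false)))
        (RE.and h0 (RE.or (RE.or h1 h2) (RE.or h3 h4)))).of_eq fun σ => Iff.rfl
    have hDDW : DD = {x | ∀ n, seg x n ∉ WD} := by
      ext x
      constructor
      · intro hx n hn
        obtain ⟨j, hj, hrest⟩ := hn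
        have hlen : j + 1 ≤ n := by
          have := congrArg List.length hj
          simp at this
          omega
        rw [seg_take x hlen] at hj
        obtain ⟨hxj, hxi⟩ := seg_xp_iff.1 (show seg x (j + 1 + 0) = seg (xp j) (j + 1 + 0) from hj)
        rcases hx with hx | ⟨hxc, hxV⟩
        · rw [hx] at hxj; simp [zz] at hxj
        · obtain ⟨j', s', hs', hseg⟩ := (mem_VV q).1 hxV
          obtain ⟨hxj', hxi'⟩ := seg_xp_iff.1 hseg
          have hjj : j = j' := first_unique hxj (fun i hi => hxi i (by omega) (by omega)) hxj'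
            (fun i hi => hxi' i (by omega) (by omega))
          subst hjj
          rcases hrest with (h | h) | (⟨s, hs, hle, hne⟩ | ⟨t, ht, hts⟩)
          · exact (hmemc x).1 hxc n h
          · exact h.2 ⟨h.1, hSA _ _ hs'⟩
          · have := hSu j s s' hs hs'
            subst this
            rw [seg_length] at hle
            rw [seg_take x hle] at hne
            exact hne hseg
          · have hlt : t < s' := by
              by_contra hcon
              push Not at hcon
              have := hts s' (by omega)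
              rw [hs'.1] at this
              exact absurd this (by simp)
            have h5 : seg x (j + 1 + t) = seg (xp j) (j + 1 + t) := seg_mono_eq hseg (by omega)
            rw [← h5] at ht
            exact (hmemc x).1 hxc _ ht
      · intro hx
        by_contra hcon
        have hxzz : x ≠ zz := fun h => hcon (Or.inl h)
        have hcon2 : x ∈ c.1 → x ∈ VV q := by
          intro h
          by_contra h'
          exact hcon (Or.inr ⟨h, h'⟩)
        have hex : ∃ j, x j = true := by
          by_contra h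
          push Not at h
          exact hxzz (funext fun i => by simpa [zz] using h i)
        let j := Nat.find hex
        have hxj : x j = true := Nat.find_spec hex
        have hxi : ∀ i < j, x i = false := fun i hi => by
          simpa using Nat.find_min hex hi
        have hseg0 : seg x (j + 1) = seg (xp j) (j + 1) := by
          have := (seg_xp_iff (x := x) (j := j) (s := 0)).2
            ⟨hxj, fun i hi hij => hxi i (by omega)⟩
          exact this
        have hzero : ∀ y : ℕ → Bool, (∀ i < j, y i = false) → ∀ n, n ≤ j → seg y n = seg zz n := by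
          intro y hy n hn
          rw [seg_eq_iff]
          intro i hi
          rw [hy i (by omega)]; rfl
        by_cases hxc : x ∈ c.1
        · have hxV := hcon2 hxc
          have hsV : ∀ s, Sj q j s → seg x (j + 1 + s) ≠ seg (xp j) (j + 1 + s) := by
            intro s hs he
            exact ((mem_VV q).2 ⟨j, s, hs, he⟩) hxV
          have hkill : ∀ s, Sj q j s → False := by
            intro s hs
            apply hx (j + 1 + s)
            refine ⟨j, by rw [seg_take x (by omega)]; exact hseg0, Or.inr (Or.inl ⟨s, hs, ?_, ?_⟩)⟩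
            · rw [seg_length]
            · rw [seg_take x le_rfl]; exact hsV s hs
          have hjA : j ∉ A := by
            intro h
            obtain ⟨s, hs⟩ := hleast j h
            exact hkill s hs
          by_cases hjc : j ∈ Rc c.1
          · exact hx (j + 1) ⟨j, by rw [seg_take x le_rfl]; exact hseg0,
              Or.inl (Or.inr ⟨hjc, fun h => hjA h.2⟩)⟩
          · have hxpc : xp j ∉ c.1 := hjc
            rw [hmemc] at hxpc
            push Not at hxpc
            obtain ⟨m, hm⟩ := hxpc
            have hmj : j + 1 ≤ m := by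
              by_contra h
              push Not at h
              have h6 : seg (xp j) m = seg zz m := hzero (xp j) (fun i hi => xp_ne (by omega)) m
                (by omega)
              rw [h6] at hm
              exact (hmemc zz).1 hzzc m hm
            obtain ⟨t, rfl⟩ := Nat.exists_eq_add_of_le hmj
            refine hx (j + 1) ⟨j, by rw [seg_take x le_rfl]; exact hseg0,
              Or.inr (Or.inr ⟨t, hm, fun s _ => ?_⟩)⟩
            by_contra h
            exact hjA ((hAq j).2 ⟨s, by simpa using h⟩)
        · rw [hmemc] at hxc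
          push Not at hxc
          obtain ⟨n, hn⟩ := hxc
          have hnj : j + 1 ≤ n := by
            by_contra h
            push Not at h
            rw [hzero x hxi n (by omega)] at hn
            exact (hmemc zz).1 hzzc n hn
          exact hx n ⟨j, by rw [seg_take x hnj]; exact hseg0, Or.inl (Or.inl hn)⟩
    have hDDpi : IsPi01 DD := isPi01_iff.2 ⟨WD, hWD, hDDW⟩
    let dd : LB B := ⟨DD, hDDpi, by
      rw [hB]; intro x hx; exact Or.inl (Set.mem_singleton_iff.1 hx)⟩
    have hBzz : ∀ x, x = zz → x ∈ B.1 := by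
      rintro x rfl; rw [hB]; rfl
    refine ⟨dd, ⟨cb ⊔ (c ⊓ V), ?_, ?_⟩, ?_, ?_⟩
    · rw [inf_bot_iff] at hcb1 ⊢
      rintro x (hx | ⟨hx1, hx2⟩) hx'
      · exact hBzz x hx
      · rcases lb_mem_sup.1 hx' with h | h
        · exact hcb1 x hx1 h
        · exact absurd (lb_mem_inf.1 h).2 hx2
    · rw [sup_top_iff] at hcb2 ⊢
      intro x
      rcases hcb2 x with h | h
      · by_cases hV : x ∈ VV q
        · exact Or.inr (lb_mem_sup.2 (Or.inr (lb_mem_inf.2 ⟨h, hV⟩)))
        · exact Or.inl (Or.inr ⟨h, hV⟩)
      · exact Or.inr (lb_mem_sup.2 (Or.inl h))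
    · rw [inf_bot_iff]
      rintro x (hx | ⟨_, hx2⟩) hx'
      · exact hBzz x hx
      · exact absurd hx' hx2
    · apply lb_ext
      ext x
      rw [lb_mem_sup, lb_mem_inf]
      constructor
      · intro h
        by_cases hV : x ∈ VV q
        · exact Or.inl ⟨h, hV⟩
        · exact Or.inr (Or.inr ⟨h, hV⟩)
      · rintro (h | h | h)
        · exact h.1
        · rw [h]; exact hzzc
        · exact h.1

end Pool.Agent.H62R3.PI
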