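import Pool.Agent.H62R3.PI.C9

set_option autoImplicit false

namespace Pool.Agent.H62R3.PI

open Pool.Agent.H572R4 Pool.Agent.Helper446 Pool.Agent.Helper446.Defs
open Pool.Agent.Helper446.CB Pool.Agent.Helper446.CB.Ix

theorem count_comp {f : ℕ → Bool} (hf : Computable f) :
    Computable fun x : ℕ => Nat.count (fun n => f n = true) x := by
  have h1 : Computable fun x : ℕ => (Nat.rec (motive := fun _ => ℕ) 0
      (fun y acc => acc + cond (f y) 1 0) x : ℕ) := by
    refine Computable.nat_rec (f := fun x : ℕ => x) (g := fun _ : ℕ => (0 : ℕ))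
      (h := fun (_ : ℕ) (p : ℕ × ℕ) => p.2 + cond (f p.1) 1 0) Computable.id
      (Computable.const 0) ?_
    have h2 : Computable fun z : ℕ × ℕ × ℕ => cond (f z.2.1) 1 0 :=
      Computable.cond (hf.comp (Computable.fst.comp Computable.snd)) (Computable.const 1)
        (Computable.const 0)
    exact (Primrec.nat_add.to_comp.comp (Computable.snd.comp Computable.snd) h2)
  refine h1.of_eq fun x => ?_
  induction x with
  | zero => simp
  | succ x ih =>
    rw [Nat.count_succ, ← ih]
    cases h : f x <;> simp [h]

theorem imm : Imm := by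
  classical
  intro C hC W hW hWC
  by_contra hinf
  -- C is computable
  have hCW : (C \ W).Finite := by
    rcases hC.2.2 W hW with h | h
    · exact absurd (by rwa [Set.inter_eq_right.2 hWC] at h) hinf
    · exact h
  have hCre : REPred fun x : ℕ => x ∈ C := by
    have h1 : REPred fun x : ℕ => x ∈ (↑hCW.toFinset : Set ℕ) :=
      RE.of_comput (cr_finite hCW.toFinset)
    refine (RE.or hW h1).of_eq fun x => ?_
    simp only [Set.Finite.coe_toFinset, Set.mem_sdiff]
    constructor
    · rintro (h | h)
      · exact hWC h
      · exact h.1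
    · intro h
      by_cases hx : x ∈ W
      · exact Or.inl hx
      · exact Or.inr ⟨h, hx⟩
  have hCc : CR C := ComputablePred.computable_iff_re_compl_re'.2 ⟨hCre, hC.2.1⟩
  obtain ⟨f, hf, e⟩ := cr_iff.1 hCc
  have hinfp : {n | f n = true}.Infinite := by
    have h : {n | f n = true} = C := by
      ext n; exact (e n).symm
    rw [h]; exact hC.1
  set X : Set ℕ := {x | f x = true ∧ Nat.count (fun n => f n = true) x % 2 = 0} with hX
  have hXc : CR X := by
    refine cr_inter (R := {x | f x = true}) (S := {x | Nat.count (fun n => f n = true) x % 2 = 0})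
      ?_ ?_
    · exact cr_iff.2 ⟨f, hf, fun n => Iff.rfl⟩
    · exact cr_eq (f := fun x => Nat.count (fun n => f n = true) x % 2)
        (Primrec.nat_mod.to_comp.comp (count_comp hf) (Computable.const 2)) 0
  have hnth : ∀ m, f (Nat.nth (fun n => f n = true) m) = true := fun m =>
    Nat.nth_mem_of_infinite hinfp m
  have hcnt : ∀ m, Nat.count (fun n => f n = true) (Nat.nth (fun n => f n = true) m) = m :=
    fun m => Nat.count_nth_of_infinite hinfp m
  have hinj : Function.Injective (Nat.nth (fun n => f n = true)) := Nat.nth_injective hinfp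
  rcases hC.2.2 X (RE.of_comput hXc) with h | h
  · refine Set.infinite_of_injective_forall_mem (f := fun m : ℕ =>
      Nat.nth (fun n => f n = true) (2 * m)) ?_ ?_ h
    · intro a b hab
      have := hinj hab
      omega
    · intro m
      refine ⟨(e _).2 (hnth _), hnth _, ?_⟩
      rw [hcnt]; omega
  · refine Set.infinite_of_injective_forall_mem (f := fun m : ℕ =>
      Nat.nth (fun n => f n = true) (2 * m + 1)) ?_ ?_ h
    · intro a b hab
      have := hinj hab
      omega
    · intro m
      refine ⟨(e _).2 (hnth _), ?_⟩
      rintro ⟨_, h2⟩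
      rw [hcnt] at h2
      omega

end Pool.Agent.H62R3.PI
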